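import Mathlib
import Pool.Agent.R125.TmE

/-!
# MP_aa4033: `A_t(d) ≤ d + 5` for Thue-Morse, equality iff `d = 2^k - 1` with `k` even
-/

namespace Pool.Agent.Results.MP_aa4033_co.LinearBound

open R125T

/-- the Thue-Morse sequence: parity of the number of ones in the binary expansion -/
def t (n : ℕ) : ℕ := (Nat.digits 2 n).count 1 % 2

/-- `A_t(n,d)`: number of terms of the longest monochromatic progression of difference `d`
starting at `n` -/
noncomputable def An (n d : ℕ) : ℕ∞ :=
  ⨆ l ∈ {l : ℕ | 1 ≤ l ∧ ∀ i < l, t (n + i * d) = t n}, (l : ℕ∞)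

/-- `A_t(d)` -/
noncomputable def A (d : ℕ) : ℕ∞ := ⨆ n, An n d

theorem count_eq_sum : ∀ l : List ℕ, (∀ x ∈ l, x < 2) → l.count 1 = l.sum := by
  intro l
  induction l with
  | nil => intro _; rfl
  | cons a l ih =>
    intro h
    have h1 := ih (fun x hx => h x (List.mem_cons_of_mem _ hx))
    have h2 := h a List.mem_cons_self
    rw [List.sum_cons, List.count_cons, h1]
    have h3 : a = 0 ∨ a = 1 := by omega
    rcases h3 with rfl | rfl
    · simp
    · simp [Nat.add_comm]

theorem t_eq (n : ℕ) : t n = (Nat.digits 2 n).sum % 2 := by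
  unfold t
  rw [count_eq_sum _ (fun x hx => Nat.digits_lt_base (by norm_num) hx)]

theorem t_iff (x y : ℕ) : t x = t y ↔ T x = T y := by
  rw [t_eq, t_eq]
  unfold T
  have h1 := Nat.mod_lt (Nat.digits 2 x).sum (show 0 < 2 by norm_num)
  have h2 := Nat.mod_lt (Nat.digits 2 y).sum (show 0 < 2 by norm_num)
  constructor
  · intro h; rw [h]
  · intro h
    by_cases h3 : (Nat.digits 2 x).sum % 2 = 1
    · rw [h3] at h
      have : (Nat.digits 2 y).sum % 2 = 1 := by simpa using h.symm
      omega
    · by_cases h4 : (Nat.digits 2 y).sum % 2 = 1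
      · rw [h4] at h
        have : (Nat.digits 2 x).sum % 2 = 1 := by simpa using h
        omega
      · omega

/-- odd differences -/
theorem odd_case (d n L : ℕ) (hd : d % 2 = 1) (hL : ∀ l < L, T (n + l * d) = T n) :
    L ≤ d + 4 ∨ (L ≤ d + 5 ∧ ∃ k, 2 ≤ k ∧ Even k ∧ d = 2 ^ k - 1) := by
  by_cases hd1 : d = 1
  · subst hd1
    left
    have := bf_spec 4 1 3 (by norm_num) (by norm_num) bf1 n L hL
    omega
  -- `2^j < d < 2^(j+1)`
  obtain ⟨j, hj1, hj2⟩ : ∃ j, 2 ^ j ≤ d ∧ d < 2 ^ (j + 1) :=
    ⟨Nat.log2 d, Nat.log2_self_le (by omega), Nat.lt_log2_self⟩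
  have hj0 : 1 ≤ j := by
    by_contra h
    have : j = 0 := by omega
    subst this
    norm_num at hj2
    omega
  have e2 : 2 ^ (j + 1) = 2 * 2 ^ j := by rw [pow_succ]; ring
  have h2j : 2 ^ j % 2 = 0 := by
    obtain ⟨i, rfl⟩ := Nat.exists_eq_add_of_le hj0
    rw [pow_add]; simp
  obtain ⟨m, hm⟩ := Nat.exists_eq_add_of_le hj1
  have hm1 : m % 2 = 1 := by omega
  have hmD : m < 2 ^ j := by omega
  by_cases hu1 : m + 1 = 2 ^ j
  · -- `d = 2^(j+1) - 1`
    have hd2 : d = 2 ^ (j + 1) - 1 := by omega
    rcases Nat.mod_two_eq_zero_or_one (j + 1) with hk | hk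
    · right
      refine ⟨?_, j + 1, by omega, Nat.even_iff.mpr hk, hd2⟩
      have h := ones_upper (j + 1) n L (by omega) (by rw [← hd2]; exact hL)
      omega
    · left
      have h := ones_odd (j + 1) n L (by omega) hk (by rw [← hd2]; exact hL)
      omega
  left
  by_cases hu3 : m + 3 = 2 ^ j
  · exact case_u3 (j + 1) n d L hd (by omega) hL
  have hj3 : 3 ≤ j := by
    by_contra h
    have : j = 1 ∨ j = 2 := by omega
    rcases this with rfl | rfl
    · norm_num at *; omega
    · norm_num at *; omega
  have hm8 : 8 ≤ 2 ^ j := by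
    calc 8 = 2 ^ 3 := by norm_num
      _ ≤ 2 ^ j := Nat.pow_le_pow_right (by norm_num) hj3
  by_cases hmm : m = 1
  · subst hmm
    have := case_m1 j n L hj3 (by rw [← hm]; exact hL)
    omega
  by_cases hu5 : m + 5 = 2 ^ j
  · by_cases hj6 : 6 ≤ j
    · exact case_u5 (j + 1) n d L (by omega) (by omega) hL
    · have hc : j = 3 ∨ j = 4 ∨ j = 5 := by omega
      rcases hc with rfl | rfl | rfl
      · have h11 : d = 11 := by norm_num at *; omega
        subst h11
        have := bf_spec 6 11 5 (by norm_num) (by norm_num) bf11 n L hL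
        omega
      · have h27 : d = 27 := by norm_num at *; omega
        subst h27
        have := bf_spec 9 27 12 (by norm_num) (by norm_num) bf27 n L hL
        omega
      · have h59 : d = 59 := by norm_num at *; omega
        subst h59
        have := bf_spec 10 59 10 (by norm_num) (by norm_num) bf59 n L hL
        omega
  have hj4 : 4 ≤ j := by
    by_contra h
    have : j = 3 := by omega
    subst this
    norm_num at *; omega
  have hm16 : 16 ≤ 2 ^ j := by
    calc 16 = 2 ^ 4 := by norm_num
      _ ≤ 2 ^ j := Nat.pow_le_pow_right (by norm_num) hj4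
  by_cases hu7 : m + 7 = 2 ^ j
  · exact case_u7 (j + 1) n d L hd (by omega) (by omega) hL
  have hm3 : 3 ≤ m := by omega
  have hm9 : m + 9 ≤ 2 ^ j := by omega
  rw [hm]
  by_cases hj8 : 8 ≤ j
  · exact general j m n L hj8 hm1 hm3 hm9 (by rw [← hm]; exact hL)
  have hok : ∀ l : List ℕ, okAll (2 ^ j) l = true → m ∉ l → L ≤ 2 ^ j + m + 4 := by
    intro l hl hml
    apply from_ok j m n L hj0 (by omega) hm1 hm9 _ (by rw [← hm]; exact hL)
    have := allB_spec _ _ hl m hmD
    simp only [Bool.or_eq_true, decide_eq_true_eq] at this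
    rcases this with ((((h | h) | h) | h) | h) | h
    · omega
    · omega
    · omega
    · exact absurd h hml
    · exact Or.inl h
    · exact Or.inr h
  have hc : j = 4 ∨ j = 5 ∨ j = 6 ∨ j = 7 := by omega
  rcases hc with rfl | rfl | rfl | rfl
  · norm_num at hm9 hm hmD hu7 ⊢
    have hmc : m = 3 ∨ m = 5 ∨ m = 7 := by omega
    rcases hmc with rfl | rfl | rfl
    · norm_num at hm
      subst hm
      have := bf_spec 7 19 6 (by norm_num) (by norm_num) bf19 n L hL
      omega
    · norm_num at hm
      subst hm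
      have := bf_spec 8 21 9 (by norm_num) (by norm_num) bf21 n L hL
      omega
    · norm_num at hm
      subst hm
      have := bf_spec 8 23 7 (by norm_num) (by norm_num) bf23 n L hL
      omega
  · by_cases h11 : m = 11
    · subst h11
      norm_num at hm
      subst hm
      have := bf_spec 9 43 9 (by norm_num) (by norm_num) bf43 n L hL
      omega
    by_cases h13 : m = 13
    · subst h13
      norm_num at hm
      subst hm
      have := bf_spec 9 45 11 (by norm_num) (by norm_num) bf45 n L hL
      omega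
    by_cases h21 : m = 21
    · subst h21
      norm_num at hm
      subst hm
      have := bf_spec 9 53 8 (by norm_num) (by norm_num) bf53 n L hL
      omega
    exact hok [11, 13, 21] ok32 (by simp [h11, h13, h21])
  · by_cases h25 : m = 25
    · subst h25
      norm_num at hm
      subst hm
      have := bf_spec 11 89 17 (by norm_num) (by norm_num) bf89 n L hL
      omega
    exact hok [25] ok64 (by simp [h25])
  · exact hok [] ok128 (by simp)

/-- all differences -/
theorem all_case : ∀ d, 1 ≤ d → ∀ n L, (∀ l < L, T (n + l * d) = T n) →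
    L ≤ d + 4 ∨ (L ≤ d + 5 ∧ ∃ k, 2 ≤ k ∧ Even k ∧ d = 2 ^ k - 1) := by
  intro d
  induction d using Nat.strong_induction_on with
  | _ d ih =>
    intro hd n L hL
    rcases Nat.mod_two_eq_zero_or_one d with h | h
    · left
      obtain ⟨e, rfl⟩ : ∃ e, d = 2 * e := ⟨d / 2, by omega⟩
      have h1 : ∀ l < L, T (n / 2 + l * e) = T (n / 2) := by
        intro l hl
        have h2 := hL l hl
        rw [T_mod2 n, T_mod2 (n + l * (2 * e))] at h2
        have e1 : (n + l * (2 * e)) / 2 = n / 2 + l * e := by
          rw [show l * (2 * e) = 2 * (l * e) by ring]; omega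
        have e2 : (n + l * (2 * e)) % 2 = n % 2 := by
          rw [show l * (2 * e) = 2 * (l * e) by ring]; omega
        rw [e1, e2] at h2
        revert h2
        cases T (n / 2 + l * e) <;> cases T (n / 2) <;> cases decide (n % 2 = 1) <;> simp
      have := ih e (by omega) (by omega) (n / 2) L h1
      omega
    · exact odd_case d n L h hL

theorem mono_iff (n d l : ℕ) : (∀ i < l, t (n + i * d) = t n) ↔ (∀ i < l, T (n + i * d) = T n) := by
  constructor
  · intro h i hi; exact (t_iff _ _).mp (h i hi)
  · intro h i hi; exact (t_iff _ _).mpr (h i hi)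

theorem A_le (d B : ℕ) (h : ∀ n L, (∀ l < L, T (n + l * d) = T n) → L ≤ B) :
    A d ≤ (B : ℕ∞) := by
  unfold A An
  apply iSup_le
  intro n
  apply iSup₂_le
  intro l hl
  exact_mod_cast h n l ((mono_iff n d l).mp hl.2)

theorem result : ∀ d : ℕ, 1 ≤ d →
    A d ≤ (d : ℕ∞) + 5 ∧ (A d = (d : ℕ∞) + 5 ↔ ∃ k, 2 ≤ k ∧ Even k ∧ d = 2 ^ k - 1) := by
  intro d hd
  have hcast : ((d + 5 : ℕ) : ℕ∞) = (d : ℕ∞) + 5 := by push_cast; rfl
  refine ⟨?_, ?_, ?_⟩
  · rw [← hcast]
    apply A_le
    intro n L hL
    rcases all_case d hd n L hL with h | h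
    · omega
    · exact h.1
  · intro hA
    by_contra hne
    have h1 : A d ≤ ((d + 4 : ℕ) : ℕ∞) := by
      apply A_le
      intro n L hL
      rcases all_case d hd n L hL with h | h
      · exact h
      · exact absurd h.2 hne
    rw [hA, ← hcast] at h1
    have : d + 5 ≤ d + 4 := by exact_mod_cast h1
    omega
  · rintro ⟨k, hk, hke, rfl⟩
    apply le_antisymm
    · rw [← hcast]
      apply A_le
      intro n L hL
      rcases all_case _ hd n L hL with h | h
      · omega
      · exact h.1
    · obtain ⟨n, hn⟩ := ones_exists k hk (Nat.even_iff.mp hke)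
      rw [← hcast]
      unfold A
      refine le_trans ?_ (le_iSup _ n)
      unfold An
      have h4 : 2 ^ k - 1 + 5 = 2 ^ k + 4 := by
        have : 0 < 2 ^ k := by positivity
        omega
      refine le_iSup₂_of_le (2 ^ k + 4) ?_ (by rw [h4])
      refine ⟨by omega, ?_⟩
      rw [mono_iff]
      exact hn

end Pool.Agent.Results.MP_aa4033_co.LinearBound
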